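import Pool.Agent.KS6_91.LM.Main

/-!
# Orbits of left multiplication and the growth of the powers

Let `T` be a quasi-rigid operator on a separable Banach space `X`. Is there always a bounded operator `Λ`
such that `Ω(T)` is contained in the closure of `{T ^ n Λ}` in the strong operator topology?

**Theorem.** (1) The answer is yes, with `Λ` the identity, if the powers of `T` are bounded (also for
normed spaces which are not separable or complete, and if `T` is not quasi-rigid). (2) This is sharp: for every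
function `w` which tends to infinity, no matter how slowly, there is an invertible quasi-rigid operator
`T` with `‖T ^ n‖ ≤ w n` for all large `n` such that, for every finite set `F` of bounded operators, for
all large `m` the operator `T ^ (-m)`, which is in `Ω(T)`, is not in the closure of
`{T ^ n Λ : n ≥ 0, Λ ∈ F}`. So `Ω(T)` is not covered by finitely many orbit closures. Here `X` is the space
`c_0(ℂ²)` (isomorphic to `c_0`), with real or with complex scalars.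

Proof of (2). `T` is the direct sum of the operators `(a, b) ↦ (a + c_k (λ_k - 1) b, λ_k b)` of `ℂ²`,
`λ_k = exp (2 π i / 2 ^ k)`, where `c_k ≥ 1` tends to infinity slowly and `c_(k + 1) ≤ c_k + 1`. The
norm of `T ^ n` is at most `1 + sup c_k |λ_k ^ n - 1|`, which is of the order of `c_k` for `k = log₂ n`.
Let `x_k = (0, 1 / c_k)` and `y = Λ x`. If `T ^ (-m) x` is in the closure of the orbit `{T ^ n y}`, then
`y_k = (a_k, b_k)` has the same invariant `a_k - c_k b_k = -1` as `x_k`, so the first coordinate of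
`(T ^ n y)_k` is `λ_k ^ n (a_k + 1) - 1`, while the one of `(T ^ (-m) x)_k` is `λ_k ^ (-m) - 1`. As `a_k`
tends to zero, this is not possible if `m` is large: for `k = log₂ (n + m) + 2` the number
`λ_k ^ (n + m)` is at a distance of at least `7 / 5` from `1`.
-/

set_option autoImplicit false

open Filter Topology Pool.Agent.KS6_91.LM
open scoped ZeroAtInfty

namespace Pool.Agent.Results.MP_24d2d6_an.SlowPowers

/-- There is an invertible quasi-rigid operator `T` on `c_0(ℂ²)` with `‖T ^ n‖ ≤ w n` for all large `n`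
such that, for every finite set `F` of operators, for all large `m` the operator `T ^ (-m)`, which is an
element of `Ω(T)`, is not in the closure of `{T ^ n Λ : n ≥ 0, Λ ∈ F}` in the strong operator
topology. -/
def NoCover (𝕜 : Type) [NontriviallyNormedField 𝕜] [NormedSpace 𝕜 ℂ] (w : ℕ → ℝ) : Prop :=
  ∃ T S : C₀(ℕ, ℂ × ℂ) →L[𝕜] C₀(ℕ, ℂ × ℂ), T * S = 1 ∧ S * T = 1 ∧ QuasiRigid T ∧
    (∀ᶠ n in atTop, ‖T ^ n‖ ≤ w n) ∧ (∀ m : ℕ, S ^ m ∈ Omega T) ∧
    ∀ F : Set (C₀(ℕ, ℂ × ℂ) →L[𝕜] C₀(ℕ, ℂ × ℂ)), F.Finite → ∃ M : ℕ, ∀ m ≥ M,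
      S ^ m ∉ SOTClosure {R | ∃ Λ ∈ F, ∃ n : ℕ, R = T ^ n * Λ}

theorem noCover (𝕜 : Type) [NontriviallyNormedField 𝕜] [NormedAlgebra 𝕜 ℂ] {w : ℕ → ℝ}
    (hw : Tendsto w atTop atTop) : NoCover 𝕜 w := by
  obtain ⟨T, S, h1, h2, h3, h4, h5, h6⟩ := exists_op 𝕜 hw
  refine ⟨T, S, h1, h2, h3, h4, h5, fun F hF => ?_⟩
  choose M hM using h6
  obtain ⟨B, hB⟩ := (hF.image M).bddAbove
  refine ⟨B, fun m hm hcl => ?_⟩
  have h7 : (fun R : C₀(ℕ, ℂ × ℂ) →L[𝕜] C₀(ℕ, ℂ × ℂ) => (R : C₀(ℕ, ℂ × ℂ) → C₀(ℕ, ℂ × ℂ))) ''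
      {R | ∃ Λ ∈ F, ∃ n : ℕ, R = T ^ n * Λ} =
      ⋃ Λ ∈ F, (fun R : C₀(ℕ, ℂ × ℂ) →L[𝕜] C₀(ℕ, ℂ × ℂ) =>
        (R : C₀(ℕ, ℂ × ℂ) → C₀(ℕ, ℂ × ℂ))) '' {R | ∃ n : ℕ, R = T ^ n * Λ} := by
    ext g
    simp only [Set.mem_image, Set.mem_iUnion, Set.mem_ofPred_eq, exists_prop]
    constructor
    · rintro ⟨R, ⟨Λ, hΛ, hR⟩, rfl⟩
      exact ⟨Λ, hΛ, R, hR, rfl⟩
    · rintro ⟨Λ, hΛ, R, hR, rfl⟩
      exact ⟨R, ⟨Λ, hΛ, hR⟩, rfl⟩
  have h8 : (S ^ m : C₀(ℕ, ℂ × ℂ) →L[𝕜] C₀(ℕ, ℂ × ℂ)) ∈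
      SOTClosure {R | ∃ Λ ∈ F, ∃ n : ℕ, R = T ^ n * Λ} := hcl
  unfold SOTClosure at h8
  rw [Set.mem_ofPred_eq, h7, hF.closure_biUnion] at h8
  obtain ⟨Λ, hΛ, h9⟩ := Set.mem_iUnion₂.mp h8
  exact hM Λ m ((hB ⟨Λ, hΛ, rfl⟩).trans hm) h9

/-- (1) If the powers of `T` are bounded, then `Ω(T)` is contained in the closure of
`{T ^ n Λ : n ≥ 1}` for `Λ = 1`. (2) For every function `w` which tends to infinity there are operators
`T` on the separable Banach space `c_0(ℂ²)`, with real and with complex scalars, with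
`‖T ^ n‖ ≤ w n` for all large `n`, for which no finite set of operators `Λ` is sufficient. -/
theorem result :
    (∀ (𝕜 : Type) [RCLike 𝕜] (X : Type) [NormedAddCommGroup X] [NormedSpace 𝕜 X]
      (T : X →L[𝕜] X), (∃ C, ∀ n, ‖T ^ n‖ ≤ C) →
        Omega T ⊆ SOTClosure {S | ∃ n : ℕ, 1 ≤ n ∧ S = T ^ n * 1}) ∧
    CompleteSpace C₀(ℕ, ℂ × ℂ) ∧ TopologicalSpace.SeparableSpace C₀(ℕ, ℂ × ℂ) ∧
    ∀ w : ℕ → ℝ, Tendsto w atTop atTop → NoCover ℝ w ∧ NoCover ℂ w :=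
  ⟨fun _ _ _ _ _ _ hT => covered hT, inferInstance, separable,
    fun _ hw => ⟨noCover ℝ hw, noCover ℂ hw⟩⟩

end Pool.Agent.Results.MP_24d2d6_an.SlowPowers
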